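import Pool.Agent.Y63.NV.Bawc

open scoped Classical

namespace Pool.Agent.Results.MP_78bba1_al.BlockPExtensions

open Pool.Agent.Y63.NV

/-- Let `X` be a class of groups closed under isomorphisms, subgroups and quotients by normal
`p`-subgroups. If the blockwise Alperin weight conjecture holds for all finite groups in `X` which
have no normal subgroup of index `p` and no non-trivial normal `p`-subgroup, then it holds for all
finite groups `Γ` which have a normal subgroup `G` in `X` such that `Γ/G` is a `p`-group (and
conversely). -/
theorem result (p : ℕ) [Fact p.Prime] (F : Type) [Field F] [IsAlgClosed F] [CharP F p]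
    (red : integralClosure ℤ ℂ →+* F) (X : ∀ (H : Type) [Group H], Prop) (hX : Closed p X) :
    (∀ (H : Type) [Group H] [Finite H], X H → Reduced p H → BAWC p red H) ↔
    ∀ (Γ : Type) [Group Γ] [Finite Γ] (G : Subgroup Γ) [G.Normal], X G → IsPGroup p (Γ ⧸ G) →
      BAWC p red Γ :=
  bawc_strong red X hX

end Pool.Agent.Results.MP_78bba1_al.BlockPExtensions
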