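import Pool.Agent.Y63.KR.Weights

/-!
# Alperin's weight conjecture as an identity between numbers of homomorphisms

Let `G` be a finite group, `p` a prime, and `Π_g` the fundamental group of the closed orientable
surface of genus `g`. Summed over the blocks of `G`, Alperin's weight conjecture says that the number
`l(G)` of classes of `p`-regular elements is the number `w(G)` of conjugacy classes of weights. We
prove that

  `∑_Q |Q| |Hom(Π_g, N_G(Q)/Q)|`,

where `Q` runs over all `p`-subgroups of `G`, tends to `|G| w(G)` `p`-adically for `g → 1`, with a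
precise rate. As `|G| l(G)` is the number of homomorphisms `ℤ[1/p] × ℤ → G`, the conjecture for `G`
says that these numbers tend to `|Hom(ℤ[1/p] × ℤ, G)|` for `g → 1`. No characters, modules or blocks
occur in this statement.

Idea of the proof: by the formula of Frobenius and Mednykh `|Hom(Π_g, H)| / |H|` is the sum of
`(|H| / χ(1))^(2g-2)` over the irreducible characters of `H`, and `|H| / χ(1)` is prime to `p`
exactly for the characters `χ` of defect zero.
-/

set_option autoImplicit false

namespace Pool.Agent.Results.MP_78bba1_al.HomomorphismCount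

open Pool.Agent.Y63.KR Pool.Agent.Y63.AWC

/-- (1) If `g ≥ 2` and `p^N (p - 1)` divides `g - 1`, the number
`∑_Q |Q| |Hom(Π_g, N_G(Q)/Q)|` is congruent to `|G| w(G)` modulo `p^(N+1)`.

(2) `l(G) = w(G)` if and only if `∑_Q |Q| |Hom(Π_g, N_G(Q)/Q)|` tends to `|Hom(ℤ[1/p] × ℤ, G)|`
`p`-adically for `g → 1` (that is, for `g ≥ 2` and `g - 1` divisible by higher and higher
`p^M (p - 1)`). -/
theorem result (p : ℕ) [Fact p.Prime] (G : Type) [Group G] [Finite G] :
    (∀ g N : ℕ, 2 ≤ g → p ^ N * (p - 1) ∣ g - 1 →
      (p : ℤ) ^ (N + 1) ∣ (weightHom p g G : ℤ) - (Nat.card G * numWeights p G : ℕ)) ∧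
    (numRegularClasses p G = numWeights p G ↔
      ∀ N : ℕ, ∃ M : ℕ, ∀ g : ℕ, 2 ≤ g → p ^ M * (p - 1) ∣ g - 1 →
        (p : ℤ) ^ N ∣ (weightHom p g G : ℤ) - (regularPairs p G : ℤ)) := by
  refine ⟨?_, awc_iff⟩
  intro g N hg hd
  obtain ⟨n, rfl⟩ : ∃ n, g = n + 1 := ⟨g - 1, by omega⟩
  exact weight_mod (by omega) (by simpa using hd)

end Pool.Agent.Results.MP_78bba1_al.HomomorphismCount
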